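import Pool.Agent.Helper58.AM.Sheet

/-! Row TYP of `Pool/Agent/Helper58/AM/Sheet.lean` (MP_98699e_co). -/

set_option autoImplicit false

open Finset

namespace Pool.Agent.Helper58.AM

theorem typ61_index {M : Type} [AddCommGroup M] [Fintype M] (K : AddSubgroup M) (hK : K < ⊤) :
    2 * Nat.card K ≤ Fintype.card M := by
  have h1 := K.card_mul_index
  rw [Nat.card_eq_fintype_card (α := M)] at h1
  have h2 : K.index ≠ 1 := fun h => hK.ne (AddSubgroup.index_eq_one.1 h)
  have h3 : K.index ≠ 0 := by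
    intro h
    rw [h, mul_zero] at h1
    exact Fintype.card_ne_zero h1.symm
  have h4 : 2 ≤ K.index := by omega
  calc 2 * Nat.card K = Nat.card K * 2 := mul_comm _ _
    _ ≤ Nat.card K * K.index := Nat.mul_le_mul_left _ h4
    _ = Fintype.card M := h1

theorem typ61_card_le {M : Type} [AddCommGroup M] [Fintype M] {H K : AddSubgroup M} (h : H ≤ K) :
    Nat.card H ≤ Nat.card K :=
  Nat.card_le_card_of_injective (AddSubgroup.inclusion h) (AddSubgroup.inclusion_injective h)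

theorem typ61_sum {M V : Type} [AddCommGroup M] (g : V → M) (H : AddSubgroup M)
    (γ : M) (L : Finset V) (h : ∀ z ∈ L, g z - γ ∈ H) :
    ∃ x ∈ H, ∑ z ∈ L, g z = L.card • γ + x := by
  refine ⟨∑ z ∈ L, (g z - γ), AddSubgroup.sum_mem _ h, ?_⟩
  rw [Finset.sum_sub_distrib, Finset.sum_const]
  abel

/-- Row TYP. -/
theorem st_TYP (hSTR : ST_STR) (hGRW : ST_GRW) : ST_TYP := by
  classical
  intro M V _ _ _ g U a b hab hba hU
  have key : (∃ (k : ℕ) (R : Finset V) (K : AddSubgroup M) (δ : M), R ⊆ U ∧ R.card ≤ 2 * k ∧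
      K < ⊤ ∧ k + Nat.card K + 1 ≤ Fintype.card M ∧ ∀ u ∈ U \ R, g u - δ ∈ K) →
      ∃ Z ⊆ U, Z.card + 2 ≤ 2 * Fintype.card M ∧
        ∀ y ∈ U \ Z, ∃ L ⊆ U.erase y, L.card = a ∧ ∑ z ∈ L, g z + (b + 1) • g y = 0 := by
    rintro ⟨k, R, K, δ, hRU, hRk, hK, hkK, hδ⟩
    obtain ⟨H, γ, k', R', hHK, hR'U, hR'k, hk', hEx, hL⟩ := hSTR M V g (U \ R) K δ hδ
    obtain ⟨Ex, hExm, hExc⟩ : ∃ Ex : Finset V, (∀ u, u ∈ Ex ↔ u ∈ U \ R ∧ g u - γ ∉ H) ∧
        Ex.card + 2 * Nat.card H ≤ 2 * Nat.card K :=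
      ⟨_, fun u => Finset.mem_filter, hEx⟩
    have hHKc : Nat.card H ≤ Nat.card K := typ61_card_le hHK
    have hK2 := typ61_index K hK
    have hZc : (R ∪ R' ∪ Ex).card ≤ R.card + R'.card + Ex.card :=
      (Finset.card_union_le _ _).trans (Nat.add_le_add_right (Finset.card_union_le _ _) _)
    have hR'U' : R' ⊆ U := hR'U.trans Finset.sdiff_subset
    refine ⟨R ∪ R' ∪ Ex, ?_, by omega, ?_⟩
    · intro u hu
      rw [Finset.mem_union, Finset.mem_union] at hu
      rcases hu with (hu | hu) | hu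
      · exact hRU hu
      · exact hR'U' hu
      · exact (Finset.mem_sdiff.1 ((hExm u).1 hu).1).1
    · intro y hy
      have hgood : ∀ z ∈ U \ (R ∪ R' ∪ Ex), g z - γ ∈ H := by
        intro z hz
        rw [Finset.mem_sdiff, Finset.mem_union, Finset.mem_union, hExm] at hz
        by_contra hcon
        exact hz.2 (Or.inr ⟨Finset.mem_sdiff.2 ⟨hz.1, fun h => hz.2 (Or.inl (Or.inl h))⟩, hcon⟩)
      have hUc : U.card ≤ (U \ (R ∪ R' ∪ Ex)).card + (R ∪ R' ∪ Ex).card := by
        have h5 := Finset.le_card_sdiff (R ∪ R' ∪ Ex) U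
        omega
      have hka : k' ≤ a := by omega
      have hcard : a - k' ≤ ((U \ (R ∪ R' ∪ Ex)).erase y).card := by
        have h5 := Finset.card_erase_add_one hy
        omega
      obtain ⟨L2, hL2, hL2c⟩ := Finset.exists_subset_card_eq hcard
      have hL2' : ∀ z ∈ L2, g z - γ ∈ H := fun z hz =>
        hgood z (Finset.mem_of_mem_erase (hL2 hz))
      obtain ⟨x2, hx2, hs2⟩ := typ61_sum g H γ L2 hL2'
      have hx3 : (b + 1) • (g y - γ) ∈ H := AddSubgroup.nsmul_mem _ (hgood y hy) _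
      obtain ⟨L1, hL1, hL1c, hs1⟩ := hL (-(x2 + (b + 1) • (g y - γ)))
        (AddSubgroup.neg_mem _ (AddSubgroup.add_mem _ hx2 hx3))
      have hdisj : Disjoint L1 L2 := by
        rw [Finset.disjoint_left]
        intro z hz1 hz2
        have h6 := Finset.mem_of_mem_erase (hL2 hz2)
        rw [Finset.mem_sdiff, Finset.mem_union, Finset.mem_union] at h6
        exact h6.2 (Or.inl (Or.inr (hL1 hz1)))
      refine ⟨L1 ∪ L2, ?_, ?_, ?_⟩
      · intro z hz
        rw [Finset.mem_union] at hz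
        rcases hz with hz | hz
        · refine Finset.mem_erase.2 ⟨?_, hR'U' (hL1 hz)⟩
          rintro rfl
          rw [Finset.mem_sdiff, Finset.mem_union, Finset.mem_union] at hy
          exact hy.2 (Or.inl (Or.inr (hL1 hz)))
        · have h7 := Finset.mem_erase.1 (hL2 hz)
          exact Finset.mem_erase.2 ⟨h7.1, (Finset.mem_sdiff.1 h7.2).1⟩
      · rw [Finset.card_union_of_disjoint hdisj, hL1c, hL2c]
        omega
      · rw [Finset.sum_union hdisj, hs1, hs2, hL2c]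
        have h8 : Fintype.card M • γ = 0 := card_nsmul_eq_zero
        have h9 : k' + (a - k') + (b + 1) = Fintype.card M := by omega
        rw [← h9, add_smul, add_smul] at h8
        rw [smul_sub]
        calc k' • γ + -(x2 + ((b + 1) • g y - (b + 1) • γ)) + ((a - k') • γ + x2) + (b + 1) • g y
            = k' • γ + (a - k') • γ + (b + 1) • γ := by abel
          _ = 0 := h8
  rcases hGRW M V g U a (by omega) (by omega) with ⟨Ra, Sa, hRaU, hRac, hSac, hSa⟩ | h2
  · rcases hGRW M V g U b (by omega) (by omega) with ⟨Rb, Sb, hRbU, hRbc, hSbc, hSb⟩ | h2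
    · refine ⟨Ra ∪ Rb, Finset.union_subset hRaU hRbU, ?_, Or.inr ⟨⟨Sa, hSac, fun s hs => ?_⟩,
        ⟨Sb, hSbc, fun s hs => ?_⟩⟩⟩
      · have h1 := Finset.card_union_le Ra Rb
        omega
      · obtain ⟨L, hL, h3⟩ := hSa s hs
        exact ⟨L, hL.trans Finset.subset_union_left, h3⟩
      · obtain ⟨L, hL, h3⟩ := hSb s hs
        exact ⟨L, hL.trans Finset.subset_union_right, h3⟩
    · obtain ⟨Z, hZ, hZc, h⟩ := key h2
      exact ⟨Z, hZ, hZc, Or.inl h⟩
  · obtain ⟨Z, hZ, hZc, h⟩ := key h2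
    exact ⟨Z, hZ, hZc, Or.inl h⟩

end Pool.Agent.Helper58.AM
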